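import Pool.Agent.R443.IsoE
import Pool.Agent.R443.SKpos

/-!
# `φ_4(S_{4,m}(n))` is unbounded for `m ≡ 6 (mod 8)`

`Pool.Agent.R443.SK.S k m n` is the coefficient of `x^n` in
`(1-x)^(-m) ∏_{0 ≤ i ≤ n} (1 - x^(k^i))^(-m(k-1))` (the factors with `i > n` have no
influence on this coefficient).
-/

set_option autoImplicit false

namespace Pool.Agent.Results.MP_53b42b_nt.Unbounded

open Pool.Agent.R443.SK

/-- For every positive `m ≡ 6 (mod 8)` and every `B` there is `n` with `4^B ∣ S_{4,m}(n)`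
(and all these numbers are positive). -/
theorem result (m : ℕ) (hm : m % 8 = 6) :
    (∀ n, 0 < S 4 m n) ∧ ∀ B : ℕ, ∃ n : ℕ, (4 : ℤ) ^ B ∣ S 4 m n := by
  refine ⟨fun n => S_pos (by norm_num) (by omega) n, fun B => ?_⟩
  obtain ⟨n, hn⟩ := Pool.Agent.R443.Iso.unbounded m hm (2 * B)
  refine ⟨n, ?_⟩
  rw [pow_mul] at hn
  norm_num at hn
  exact hn

end Pool.Agent.Results.MP_53b42b_nt.Unbounded
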